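import Pool.Agent.R989.DK.Final

open MeasureTheory Set
open scoped ENNReal

namespace Pool.Agent.Results.MP_0b7119_mp.NotConcaveDimOne

open Pool.Agent.R989.DK in
/-- In dimension `d = 1`, for every mass `m > 0` and every exponent `p ≥ 1`, the map
`V ↦ λ_D(V)` is not concave on `U_p`.  The two potentials are bounded with compact support, and
every nonnegative potential whose `L^p` norm is at most theirs keeps its lowest gap eigenvalue
uniformly away from `-m`. -/
theorem result : ∀ m p : ℝ, 0 < m → 1 ≤ p →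
    ∃ V ∈ U m p, ∃ W ∈ U m p, ∃ t ∈ Ioo (0:ℝ) 1,
      lambdaD m (fun x => t * V x + (1 - t) * W x) <
        t * lambdaD m V + (1 - t) * lambdaD m W ∧
      (∃ R : ℝ, ∀ x, V x ≤ R ∧ W x ≤ R ∧ (R < |x| → V x = 0 ∧ W x = 0)) ∧
      ∃ ε : ℝ, 0 < ε ∧ ∀ X : ℝ → ℝ, (∀ x, 0 ≤ X x) → MemLp X (ENNReal.ofReal p) volume →
        eLpNorm X (ENNReal.ofReal p) volume ≤
          max (eLpNorm V (ENNReal.ofReal p) volume) (eLpNorm W (ENNReal.ofReal p) volume) →
        -m + ε ≤ lambdaD m X :=
  fun _ _ hm hp => main hm hp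

end Pool.Agent.Results.MP_0b7119_mp.NotConcaveDimOne
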